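import Mathlib

open Pointwise

namespace Pool.Agent.Results.MP_5c8dfa_al.Counterexample

/-- Elements of the wreath product `W wr Sym(ι)`. -/
@[ext] structure Wr (ι W : Type) where
  top : Equiv.Perm ι
  base : ι → W

variable {ι W Ω H : Type}

instance [Group W] : Mul (Wr ι W) := ⟨fun a b => ⟨a.top * b.top, fun i => a.base (b.top i) * b.base i⟩⟩
instance [Group W] : One (Wr ι W) := ⟨⟨1, fun _ => 1⟩⟩
instance [Group W] : Inv (Wr ι W) := ⟨fun a => ⟨a.top⁻¹, fun i => (a.base (a.top⁻¹ i))⁻¹⟩⟩

@[simp] lemma mul_top [Group W] (a b : Wr ι W) : (a * b).top = a.top * b.top := rfl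
@[simp] lemma mul_base [Group W] (a b : Wr ι W) (i : ι) :
    (a * b).base i = a.base (b.top i) * b.base i := rfl
@[simp] lemma one_top [Group W] : (1 : Wr ι W).top = 1 := rfl
@[simp] lemma one_base [Group W] (i : ι) : (1 : Wr ι W).base i = 1 := rfl
@[simp] lemma inv_top [Group W] (a : Wr ι W) : (a⁻¹).top = a.top⁻¹ := rfl
@[simp] lemma inv_base [Group W] (a : Wr ι W) (i : ι) :
    (a⁻¹).base i = (a.base (a.top⁻¹ i))⁻¹ := rfl

instance [Group W] : Group (Wr ι W) :=
  Group.ofLeftAxioms
    (fun a b c => by ext i <;> simp [mul_assoc])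
    (fun a => by ext i <;> simp)
    (fun a => by ext i <;> simp)

instance [Group W] [MulAction W Ω] : MulAction (Wr ι W) (ι × Ω) where
  smul a p := (a.top p.1, a.base p.1 • p.2)
  one_smul p := by
    show ((1 : Wr ι W).top p.1, (1 : Wr ι W).base p.1 • p.2) = p
    simp
  mul_smul a b p := by
    show ((a * b).top p.1, (a * b).base p.1 • p.2) =
      (a.top (b.top p.1), a.base (b.top p.1) • b.base p.1 • p.2)
    simp [mul_smul]

lemma smul_def [Group W] [MulAction W Ω] (a : Wr ι W) (i : ι) (x : Ω) :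
    a • (i, x) = (a.top i, a.base i • x) := rfl

/-- The map onto `H × {±1}`. -/
noncomputable def wrHom [Fintype ι] [DecidableEq ι] [Group W] [CommGroup H] (φ : W →* H) :
    Wr ι W →* H × ℤˣ where
  toFun a := (∏ i, φ (a.base i), Equiv.Perm.sign a.top)
  map_one' := by simp
  map_mul' a b := by
    ext
    · simp only [mul_base, map_mul, Finset.prod_mul_distrib, Prod.fst_mul]
      rw [Equiv.prod_comp b.top (fun i => φ (a.base i))]
    · simp

/-- The data carried through the induction. -/
def Good (m : ℕ) : Prop :=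
  ∃ (Ω W H : Type) (_ : Finite Ω) (_ : Nonempty Ω) (_ : Group W) (_ : MulAction W Ω)
    (_ : CommGroup H) (_ : Finite H) (φ : W →* H),
    FaithfulSMul W Ω ∧ MulAction.IsPretransitive W Ω ∧ Nat.card H = 2 ^ m ∧
      ∀ (Δ : Set Ω) (h : H), ∃ w : W, (∀ x, w • x ∈ Δ ↔ x ∈ Δ) ∧ φ w = h

lemma good_zero : Good 0 := by
  refine ⟨Unit, Equiv.Perm Unit, Unit, inferInstance, inferInstance, inferInstance, inferInstance,
    inferInstance, inferInstance, 1, inferInstance, inferInstance, by simp, ?_⟩
  intro Δ h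
  exact ⟨1, by simp, rfl⟩

lemma good_succ (m : ℕ) (hm : Good m) : Good (m + 1) := by
  classical
  obtain ⟨Ω, W, H, hfin, hne, hW, hact, hH, hHfin, φ, hf, ht, hc, hs⟩ := hm
  let ι := Option (Set Ω)
  haveI : Fintype ι := Fintype.ofFinite ι
  refine ⟨ι × Ω, Wr ι W, H × ℤˣ, inferInstance, inferInstance, inferInstance, inferInstance,
    inferInstance, inferInstance, wrHom φ, ?_, ?_, ?_, ?_⟩
  · constructor
    intro a b hab
    obtain ⟨x0⟩ := hne
    ext i
    · have := hab (i, x0)
      simp only [smul_def, Prod.mk.injEq] at this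
      rw [this.1]
    · apply hf.eq_of_smul_eq_smul
      intro x
      have := hab (i, x)
      simp only [smul_def, Prod.mk.injEq] at this
      exact this.2
  · constructor
    rintro ⟨i, x⟩ ⟨j, y⟩
    obtain ⟨w, hw⟩ := ht.exists_smul_eq x y
    exact ⟨⟨Equiv.swap i j, fun _ => w⟩, by simp [smul_def, hw]⟩
  · rw [Nat.card_prod, hc, pow_succ]
    simp
  · rintro Δ ⟨h, e⟩
    let sl : ι → Set Ω := fun i => {x | (i, x) ∈ Δ}
    obtain ⟨w, hw, hφ⟩ := hs (sl none) h
    let a : Wr ι W := ⟨1, Pi.mulSingle none w⟩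
    have ha : ∀ p, a • p ∈ Δ ↔ p ∈ Δ := by
      rintro ⟨i, x⟩
      by_cases hi : i = none
      · subst hi
        simpa [smul_def, a, sl] using hw x
      · simp [smul_def, a, Pi.mulSingle_eq_of_ne hi]
    have hφa : wrHom φ a = (h, 1) := by
      ext
      · simp only [wrHom, MonoidHom.coe_mk, OneHom.coe_mk, a]
        rw [Finset.prod_eq_single none]
        · simpa using hφ
        · intro i _ hi
          simp [Pi.mulSingle_eq_of_ne hi]
        · simp
      · simp [wrHom, a]
    obtain ⟨i, j, hij, hsl⟩ : ∃ i j : ι, i ≠ j ∧ sl i = sl j := by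
      haveI : Fintype (Set Ω) := Fintype.ofFinite _
      apply Fintype.exists_ne_map_eq_of_card_lt
      rw [← Nat.card_eq_fintype_card, ← Nat.card_eq_fintype_card]
      show Nat.card (Set Ω) < Nat.card (Option (Set Ω))
      rw [Finite.card_option]
      omega
    let b : Wr ι W := ⟨Equiv.swap i j, fun _ => 1⟩
    have hb : ∀ p, b • p ∈ Δ ↔ p ∈ Δ := by
      rintro ⟨k, x⟩
      have h1 : (i, x) ∈ Δ ↔ (j, x) ∈ Δ := by
        have := Set.ext_iff.1 hsl x
        simpa [sl] using this
      simp only [smul_def, b, one_smul]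
      by_cases hki : k = i
      · subst hki
        simpa using h1.symm
      · by_cases hkj : k = j
        · subst hkj
          simpa using h1
        · rw [Equiv.swap_apply_of_ne_of_ne hki hkj]
    have hφb : wrHom φ b = (1, -1) := by
      ext
      · simp [wrHom, b]
      · simp [wrHom, b, Equiv.Perm.sign_swap hij]
    rcases Int.units_eq_one_or e with rfl | rfl
    · exact ⟨a, ha, hφa⟩
    · refine ⟨a * b, fun p => ?_, ?_⟩
      · rw [mul_smul, ha, hb]
      · rw [map_mul, hφa, hφb]
        simp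

lemma good_all (m : ℕ) : Good m := by
  induction m with
  | zero => exact good_zero
  | succ m ih => exact good_succ m ih

theorem result (C : ℕ) :
    ∃ (Ω : Type) (_ : Finite Ω) (G : Subgroup (Equiv.Perm Ω)) (H : Type) (_ : Group H)
      (_ : Finite H) (φ : G →* H),
      MulAction.IsPretransitive G Ω ∧ Function.Surjective φ ∧ C ≤ Nat.card H ∧
        ∀ Δ : Set Ω, (MulAction.stabilizer G Δ).map φ = ⊤ := by
  obtain ⟨Ω, W, H, hfin, hne, hW, hact, hH, hHfin, φ, hf, ht, hc, hs⟩ := good_all C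
  let e : W ≃* (MulAction.toPermHom W Ω).range :=
    MonoidHom.ofInjective (MulAction.toPerm_injective (α := W) (β := Ω))
  have he : ∀ (w : W) (x : Ω), e w • x = w • x := fun w x => rfl
  refine ⟨Ω, hfin, (MulAction.toPermHom W Ω).range, H, inferInstance, hHfin,
    φ.comp e.symm.toMonoidHom, ?_, ?_, ?_, ?_⟩
  · constructor
    intro x y
    obtain ⟨w, hw⟩ := ht.exists_smul_eq x y
    exact ⟨e w, by rw [he, hw]⟩
  · intro h
    obtain ⟨w, -, hw⟩ := hs ∅ h
    exact ⟨e w, by simpa using hw⟩
  · rw [hc]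
    exact Nat.lt_two_pow_self.le
  · intro Δ
    rw [eq_top_iff]
    intro h _
    obtain ⟨w, hw, hφ⟩ := hs Δ h
    refine ⟨e w, ?_, by simpa using hφ⟩
    show e w ∈ MulAction.stabilizer _ Δ
    rw [MulAction.mem_stabilizer_iff]
    ext x
    rw [Set.mem_smul_set_iff_inv_smul_mem, ← map_inv, he, ← hw, smul_inv_smul]

end Pool.Agent.Results.MP_5c8dfa_al.Counterexample
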